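import Pool.Agent.Run7.h927.WS.L5

/-!
# MP_efcac8_nt: the asymptotic formula for almost all numbers with `k+1` shifted powers, for almost every shift

Let `k ≥ 2`. For a shift `θ ∈ [0,1]^s` a number `n` is called exceptional if somewhere in `[n, n+1]` the asymptotic formula
for the number of the representations by `s` shifted `k`-th powers of positive integers fails: for some `ν ∈ [n, n+1]` and
some `ε ∈ [ν^(-1/(50k)), 1]` the number of the `x` with `x_i ≥ 1` and `|∑ (x_i - θ_i)^k - ν| ≤ ε` differs from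
`2 ε Γ(1+1/k)^s / Γ(s/k) ν^(s/k-1)` by more than `ε ν^(s/k - 1 - 1/(50k))`.

* If `s ≥ k+1`, then for almost every shift `θ ∈ [0,1]^s` there are at most `N^(1 - 1/(17k))` exceptional `n ≤ N`, `N` large.
* If `1 ≤ s ≤ k`, then for every shift all large `n` are exceptional.
-/

namespace Pool.Agent.Results.MP_efcac8_nt.AlmostAllNumbers

open MeasureTheory Filter

/-- the solutions in positive integers of the inequality `|∑ (x_i - θ_i)^k - ν| ≤ ε` -/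
def Solutions (k s : ℕ) (θ : Fin s → ℝ) (ν ε : ℝ) : Set (Fin s → ℕ) :=
  {x | (∀ i, 1 ≤ x i) ∧ |∑ i, ((x i : ℝ) - θ i) ^ k - ν| ≤ ε}

/-- the constant of the singular integral -/
noncomputable def singular (k s : ℕ) : ℝ := Real.Gamma (1 / k + 1) ^ s / Real.Gamma ((s : ℝ) / k)

/-- the asymptotic formula fails somewhere in `[n, n+1]` -/
def Exceptional (k s : ℕ) (θ : Fin s → ℝ) (n : ℕ) : Prop :=
  ∃ ν ∈ Set.Icc (n : ℝ) (n + 1), ∃ ε : ℝ, ν ^ (-(1 / (50 * k)) : ℝ) ≤ ε ∧ ε ≤ 1 ∧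
    ε * ν ^ ((s : ℝ) / k - 1 - 1 / (50 * k)) <
      |((Solutions k s θ ν ε).ncard : ℝ) - 2 * ε * (singular k s * ν ^ ((s : ℝ) / k - 1))|

open Classical in
theorem result (k : ℕ) (hk : 2 ≤ k) :
    (∀ s : ℕ, k < s → ∀ᵐ θ : Fin s → ℝ ∂(volume.restrict (Set.Icc 0 1)), ∀ᶠ N : ℕ in atTop,
      (((Finset.range (N + 1)).filter (fun n => Exceptional k s θ n)).card : ℝ) ≤ (N : ℝ) ^ (1 - 1 / (17 * k) : ℝ)) ∧
    (∀ s : ℕ, 1 ≤ s → s ≤ k → ∀ θ : Fin s → ℝ, ∀ᶠ n : ℕ in atTop, Exceptional k s θ n) := by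
  refine ⟨fun d hd => ?_, ?_⟩
  · have h := Pool.Agent.Run7.h927.WS.almost_pos k d hk hd
    have hbox : Pool.Agent.Run7.h927.WS.box d 0 1 = volume.restrict (Set.Icc (0 : Fin d → ℝ) 1) := by
      rw [Pool.Agent.Run7.h927.WS.box_eq, Set.pi_univ_Icc]
      rfl
    rw [hbox] at h
    exact h
  intro d hd1 hd2 θ
  have hk0 : (0 : ℝ) < k := by exact_mod_cast (by omega : 0 < k)
  have hd0 : (0 : ℝ) < d := by exact_mod_cast (by omega : 0 < d)
  have hdk : (d : ℝ) ≤ k := by exact_mod_cast hd2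
  have hC : 0 < singular k d :=
    div_pos (pow_pos (Real.Gamma_pos_of_pos (by positivity)) d) (Real.Gamma_pos_of_pos (by positivity))
  obtain ⟨C, hCe⟩ : ∃ C, C = singular k d := ⟨_, rfl⟩
  rw [← hCe] at hC
  obtain ⟨δ, hδ⟩ : ∃ δ : ℝ, δ = 1 / (50 * (k : ℝ)) := ⟨_, rfl⟩
  have hδ0 : 0 < δ := by rw [hδ]; positivity
  obtain ⟨ε, hε⟩ : ∃ ε : ℝ, ε = min 1 (1 / (4 * C)) := ⟨_, rfl⟩
  have hε0 : 0 < ε := by rw [hε]; exact lt_min one_pos (by positivity)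
  have hε1 : ε ≤ 1 := by rw [hε]; exact min_le_left _ _
  have hε2 : 2 * ε * C ≤ 1 / 2 := by
    have h1 : ε ≤ 1 / (4 * C) := by rw [hε]; exact min_le_right _ _
    calc 2 * ε * C ≤ 2 * (1 / (4 * C)) * C := by gcongr
      _ = 1 / 2 := by
          field_simp
          norm_num
  have ht : Tendsto (fun n : ℕ => (n : ℝ) ^ (-δ)) atTop (nhds 0) :=
    (tendsto_rpow_neg_atTop hδ0).comp tendsto_natCast_atTop_atTop
  filter_upwards [ht.eventually (ge_mem_nhds hε0), ht.eventually (gt_mem_nhds hC), eventually_ge_atTop 1] with n h1 h2 h3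
  have hn1 : (1 : ℝ) ≤ n := by exact_mod_cast h3
  have hn0 : (0 : ℝ) < n := by linarith
  refine ⟨n, ⟨le_rfl, by linarith⟩, ε, by rw [← hδ]; exact h1, hε1, ?_⟩
  rw [← hδ, ← hCe]
  obtain ⟨b, hb⟩ : ∃ b : ℝ, b = (d : ℝ) / k - 1 := ⟨_, rfl⟩
  have hb0 : b ≤ 0 := by
    rw [hb, sub_nonpos, div_le_one hk0]
    exact hdk
  rw [← hb]
  have hnb : (n : ℝ) ^ b ≤ 1 := Real.rpow_le_one_of_one_le_of_nonpos hn1 hb0
  have hnb0 : 0 < (n : ℝ) ^ b := by positivity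
  obtain ⟨x, hx⟩ : ∃ x : ℝ, x = 2 * ε * (C * (n : ℝ) ^ b) := ⟨_, rfl⟩
  have hx0 : 0 < x := by rw [hx]; positivity
  have hx1 : x ≤ 1 / 2 := by
    rw [hx]
    calc 2 * ε * (C * (n : ℝ) ^ b) ≤ 2 * ε * (C * 1) := by gcongr
      _ ≤ 1 / 2 := by linarith
  have hgap : ∀ R : ℕ, x ≤ |(R : ℝ) - x| := by
    intro R
    rcases Nat.eq_zero_or_pos R with h | h
    · rw [h, Nat.cast_zero, zero_sub, abs_neg, abs_of_pos hx0]
    · have h4 : (1 : ℝ) ≤ R := by exact_mod_cast h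
      rw [abs_of_nonneg (by linarith)]
      linarith
  rw [← hx]
  refine lt_of_lt_of_le ?_ (hgap _)
  rw [hx]
  have h5 : (n : ℝ) ^ (b - δ) = (n : ℝ) ^ (-δ) * (n : ℝ) ^ b := by
    rw [← Real.rpow_add hn0]
    congr 1
    ring
  rw [h5]
  calc ε * ((n : ℝ) ^ (-δ) * (n : ℝ) ^ b) < ε * (C * (n : ℝ) ^ b) := by
        apply mul_lt_mul_of_pos_left _ hε0
        exact mul_lt_mul_of_pos_right h2 hnb0
    _ ≤ 2 * ε * (C * (n : ℝ) ^ b) := by
        have : 0 < ε * (C * (n : ℝ) ^ b) := by positivity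
        linarith

end Pool.Agent.Results.MP_efcac8_nt.AlmostAllNumbers
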