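import Pool.Agent.Run7.h927.WS.F

/-!
# MP_efcac8_nt: `2k+1` shifted `k`-th powers, for almost all shifts

Waring's problem with shifts asks for the representation of all large numbers `ν` by
`(x₁ - θ₁)^k + … + (x_s - θ_s)^k` with positive integers `x_i`. For `k ≥ 2` and `s ≥ 2k+1`, the number of variables in
the conjecture of Hardy and Littlewood `G(k) ≤ 2k+1`, and for almost every shift `θ ∈ [0,1]^s`, the number of the
solutions of `|∑ (x_i - θ_i)^k - ν| ≤ ε` is at least `c ε ν^(s/k - 1)` for all large real `ν` and all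
`ν^(-1/(20k)) ≤ ε ≤ 1`, with `c > 0` depending on `k` and `s` only. In particular every large integer `n` is the integer
part of a sum of `s` shifted `k`-th powers of positive integers.
-/

namespace Pool.Agent.Results.MP_efcac8_nt.AlmostAllShifts

open MeasureTheory Filter

theorem result (k s : ℕ) (hk : 2 ≤ k) (hs : 2 * k + 1 ≤ s) :
    ∃ c : ℝ, 0 < c ∧ ∀ᵐ θ : Fin s → ℝ ∂(volume.restrict (Set.Icc 0 1)),
      (∀ᶠ ν : ℝ in atTop, ∀ ε : ℝ, ν ^ (-(1 / (20 * k)) : ℝ) ≤ ε → ε ≤ 1 →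
        ∃ F : Finset (Fin s → ℕ), c * ε * ν ^ ((s : ℝ) / k - 1) ≤ (F.card : ℝ) ∧
          ∀ x ∈ F, (∀ i, 0 < x i) ∧ |∑ i, ((x i : ℝ) - θ i) ^ k - ν| ≤ ε) ∧
      (∀ᶠ n : ℕ in atTop, ∃ x : Fin s → ℕ, (∀ i, 0 < x i) ∧ ⌊∑ i, ((x i : ℝ) - θ i) ^ k⌋₊ = n) := by
  obtain ⟨m, rfl⟩ : ∃ m, s = 4 + m := ⟨s - 4, by omega⟩
  obtain ⟨c, hc, h⟩ := Pool.Agent.Run7.h927.WS.main_shift m k hk hs
  refine ⟨c, hc, ?_⟩
  have hbox : Pool.Agent.Run7.h927.WG.box (4 + m) 0 1 = volume.restrict (Set.Icc (0 : Fin (4 + m) → ℝ) 1) := by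
    rw [Pool.Agent.Run7.h927.WG.box_eq, Set.pi_univ_Icc]
    rfl
  rw [← hbox]
  filter_upwards [h] with θ hθ
  refine ⟨hθ, ?_⟩
  have hk0 : (0 : ℝ) < k := by exact_mod_cast (by omega : 0 < k)
  have h1 : Tendsto (fun n : ℕ => (n : ℝ) + 1 / 2) atTop atTop :=
    tendsto_atTop_add_const_right _ _ tendsto_natCast_atTop_atTop
  have h2 : Tendsto (fun ν : ℝ => ν ^ (-(1 / (20 * k)) : ℝ)) atTop (nhds 0) := by
    apply tendsto_rpow_neg_atTop
    positivity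
  have h3 := h1.eventually (h2.eventually (ge_mem_nhds (by norm_num : (0 : ℝ) < 1 / 4)))
  filter_upwards [h1.eventually hθ, h3] with n hn hn'
  obtain ⟨F, hF1, hF2⟩ := hn (1 / 4) hn' (by norm_num)
  have hpos : (0 : ℝ) < F.card := by
    refine lt_of_lt_of_le ?_ hF1
    positivity
  obtain ⟨x, hx⟩ := Finset.card_pos.1 (by exact_mod_cast hpos : 0 < F.card)
  obtain ⟨hx1, hx2⟩ := hF2 x hx
  refine ⟨x, hx1, ?_⟩
  rw [abs_le] at hx2
  have hn0 : (0 : ℝ) ≤ n := Nat.cast_nonneg n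
  rw [Nat.floor_eq_iff (by linarith [hx2.1])]
  constructor
  · linarith [hx2.1]
  · linarith [hx2.2]

end Pool.Agent.Results.MP_efcac8_nt.AlmostAllShifts
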