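import Pool.Agent.Run7.h332.WP.Basis3

/-!
# MP_efcac8_nt: `2 k + 1` positive `k`-th powers suffice if a tenth of them is perturbed

Let `k ≥ 2`, `0 < δ ≤ 1 - 1/k`, and let `ξ n` be independent random nonnegative integers such that
each `j ≤ n ^ (δ k)` is the value of `ξ n` with probability at least `c / n ^ (δ k)`, for instance
uniform on the integers `≤ n ^ (δ k)`; then a *perturbed `k`-th power* `n ^ k + ξ n` differs from
`x = n ^ k` by at most `x ^ δ`. Almost surely, for all `t` and `q` with `(1 - 1/k) ^ t < δ` and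
`k (1 - 1/k) ^ t < q`, every large integer is a sum of `t` positive `k`-th powers and `q` perturbed
ones. In particular, for `δ ≥ 1/5` every large integer is a sum of `2 k + 1` such terms, of which
`⌊9 k / 5⌋` are exact `k`-th powers, and all but one are exact if `k ≤ 8`. For three exact cubes
and one perturbed cube (four terms) `δ > 8/27` is enough.

Proof: the sums of `t` exact `k`-th powers have gaps `≪ N ^ ((1 - 1/k) ^ t)` up to `N`, and each
perturbed term divides the size of the gaps by `N ^ (1/k - ε)`, almost surely for all large numbers.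
-/

open MeasureTheory ProbabilityTheory Filter

namespace Pool.Agent.Results.MP_efcac8_nt.MostlyExactPowers

/-- Every large integer is a sum of exactly `t` `k`-th powers of positive integers and of exactly `q`
numbers `n ^ k + x n` with `n ≥ 1`. -/
def Good (k t q : ℕ) (x : ℕ → ℕ) : Prop :=
  ∃ N₀ : ℕ, ∀ m : ℕ, N₀ ≤ m → ∃ (a : Fin t → ℕ) (b : Fin q → ℕ), (∀ i, 1 ≤ a i) ∧ (∀ i, 1 ≤ b i) ∧
    m = ∑ i, (a i) ^ k + ∑ i, ((b i) ^ k + x (b i))

/-- `e ^ (49/30) > 5`. -/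
theorem exp_large : (5 : ℝ) < Real.exp (49 / 30) := by
  have h := Real.sum_le_exp_of_nonneg (show (0 : ℝ) ≤ 49 / 30 by norm_num) 10
  refine lt_of_lt_of_le ?_ h
  norm_num [Finset.sum_range_succ, Nat.factorial]

/-- `(1 - 1/k) ^ ⌊9 k / 5⌋ < 1/5`. -/
theorem pow_small (k : ℕ) (hk : 2 ≤ k) : (1 - 1 / (k : ℝ)) ^ (9 * k / 5) < 1 / 5 := by
  rcases Nat.lt_or_ge k 6 with h | h
  · interval_cases k <;> norm_num
  · have hkR : (6 : ℝ) ≤ k := by exact_mod_cast h
    have hkpos : (0 : ℝ) < k := by linarith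
    have hr0 : (0 : ℝ) ≤ 1 - 1 / (k : ℝ) := by
      rw [sub_nonneg, div_le_one hkpos]
      linarith
    set t : ℕ := 9 * k / 5 with ht
    have ht1 : (9 * k : ℝ) ≤ 5 * t + 4 := by
      have : 9 * k ≤ 5 * t + 4 := by omega
      exact_mod_cast this
    have h1 : 1 - 1 / (k : ℝ) ≤ Real.exp (-(1 / (k : ℝ))) := by
      have := Real.add_one_le_exp (-(1 / (k : ℝ)))
      linarith
    have h2 : (1 - 1 / (k : ℝ)) ^ t ≤ Real.exp (-(1 / (k : ℝ))) ^ t := pow_le_pow_left₀ hr0 h1 t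
    have h3 : Real.exp (-(1 / (k : ℝ))) ^ t = Real.exp (-(t / k)) := by
      rw [← Real.exp_nat_mul]
      congr 1
      ring
    have h4 : (49 / 30 : ℝ) ≤ t / k := by
      rw [le_div_iff₀ hkpos]
      linarith
    have h5 : Real.exp (-(t / k)) ≤ Real.exp (-(49 / 30)) := Real.exp_le_exp.2 (by linarith)
    have h6 : Real.exp (-(49 / 30)) < 1 / 5 := by
      rw [Real.exp_neg, inv_eq_one_div]
      exact one_div_lt_one_div_of_lt (by norm_num) exp_large
    rw [h3] at h2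
    linarith

/-- `k (1 - 1/k) ^ (2 k) < 1` for `k ≤ 8`. -/
theorem pow_one (k : ℕ) (hk : 2 ≤ k) (hk' : k ≤ 8) :
    k * (1 - 1 / (k : ℝ)) ^ (2 * k) < 1 ∧ (1 - 1 / (k : ℝ)) ^ (2 * k) < 1 / 5 := by
  interval_cases k <;> norm_num

/-- **Main result.** Let `k ≥ 2`, `0 < δ ≤ 1 - 1/k`, `c > 0`, and let `ξ n` be independent random
nonnegative integers such that each integer `j ≤ n ^ (δ k)` is the value of `ξ n` (`n ≥ 1`) with
probability at least `c / n ^ (δ k)`. Almost surely: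

(1) for all `t`, `q` with `(1 - 1/k) ^ t < δ` and `k (1 - 1/k) ^ t < q` every large integer is a sum of
exactly `t` `k`-th powers of positive integers and exactly `q` perturbed ones `n ^ k + ξ n`, `n ≥ 1`;

(2) if `δ ≥ 1/5` this holds for `t = ⌊9 k / 5⌋` and `q = 2 k + 1 - t`;

(3) if `δ ≥ 1/5` and `k ≤ 8` it holds for `t = 2 k` and `q = 1`;

(4) if `k = 3` and `δ > 8/27` it holds for `t = 3` and `q = 1`. -/
theorem result {Ω : Type*} [MeasurableSpace Ω] (P : Measure Ω) [IsProbabilityMeasure P]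
    (k : ℕ) (hk : 2 ≤ k) (δ : ℝ) (hδ0 : 0 < δ) (hδ1 : δ ≤ 1 - 1 / (k : ℝ)) (c : ℝ) (hc : 0 < c)
    (ξ : ℕ → Ω → ℕ) (hm : ∀ n, Measurable (ξ n)) (hind : iIndepFun ξ P)
    (hdens : ∀ n j : ℕ, 1 ≤ n → (j : ℝ) ≤ (n : ℝ) ^ (δ * k) →
      c / (n : ℝ) ^ (δ * k) ≤ P.real {ω | ξ n ω = j}) :
    ∀ᵐ ω ∂P,
      (∀ t q : ℕ, (1 - 1 / (k : ℝ)) ^ t < δ → k * (1 - 1 / (k : ℝ)) ^ t < q →
        Good k t q (fun n => ξ n ω)) ∧
      (1 / 5 ≤ δ → Good k (9 * k / 5) (2 * k + 1 - 9 * k / 5) (fun n => ξ n ω)) ∧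
      (1 / 5 ≤ δ → k ≤ 8 → Good k (2 * k) 1 (fun n => ξ n ω)) ∧
      (k = 3 → 8 / 27 < δ → Good 3 3 1 (fun n => ξ n ω)) := by
  have hkR : (2 : ℝ) ≤ k := by exact_mod_cast hk
  have hkpos : (0 : ℝ) < k := by linarith
  filter_upwards [Run7.h332.WP.positive k hk δ hδ0 hδ1 c hc ξ hm hind hdens] with ω hω
  refine ⟨hω, fun hδ => ?_, fun hδ hk' => ?_, fun hk3 hδ => ?_⟩
  · have h1 := pow_small k hk
    refine hω _ _ (lt_of_lt_of_le h1 hδ) ?_
    have h2 : 5 * (2 * k + 1 - 9 * k / 5) ≥ k := by omega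
    have h3 : (k : ℝ) ≤ 5 * ((2 * k + 1 - 9 * k / 5 : ℕ) : ℝ) := by exact_mod_cast h2
    have h4 : k * (1 - 1 / (k : ℝ)) ^ (9 * k / 5) < k * (1 / 5) :=
      mul_lt_mul_of_pos_left h1 hkpos
    linarith
  · obtain ⟨h1, h2⟩ := pow_one k hk hk'
    exact hω _ _ (lt_of_lt_of_le h2 hδ) (by exact_mod_cast h1)
  · subst hk3
    refine hω 3 1 ?_ ?_
    · norm_num
      linarith
    · norm_num

end Pool.Agent.Results.MP_efcac8_nt.MostlyExactPowers
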