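import Mathlib
import Pool.Agent.Run7.h757.MW.Num2

/-!
# `2 k + 1` summands, 92 percent of them genuine `k`-th powers

For `k ≥ 512` and almost all positive `lam_1, ..., lam_u`, `u = 2 k + 1 - ⌊9 k / 5⌋`, every large integer is a sum of
`⌊9 k / 5⌋` `k`-th powers of primes and of `u` terms `⌊lam_i p_i ^ k⌋`, `p_i` prime, in total `2 k + 1` terms. More generally, for
fixed `C` and `ρ` with `ρ + exp (-ρ) < C` and large `k` one can take `⌊C k⌋` terms, `⌊ρ k⌋` of which are genuine `k`-th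
powers (`C = 2`: any `ρ < 1.8414`). The variables may be restricted to arbitrary regularly distributed sets.

Proof. (1) With `r` genuine `k`-th powers (in diminishing ranges, one copy) and `u > k (1 - 1 / k) ^ r` generic terms the
circle method, a mean value estimate over `lam` for the sums `∑ e(a ⌊lam n ^ k⌋)` and Parseval's identity give an exceptional
set with at most `X ^ (1 - δ + ε)` elements, `δ = (u - k (1 - 1 / k) ^ r) / k`. (2) Each further generic variable doubles `δ`: if `M` is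
exceptional for `s + 1` variables, then `M - ⌊lam a ^ k⌋` and `M - ⌊lam b ^ k⌋` are exceptional for `s` variables, for all
`a, b`; with `a` fixed and `b ≍ X ^ (1 / k)` their difference is a random number of size `X`, and an exceptional set `E` has
only `|E| ^ 2 / X` pairs with this difference, on average. So about `log₂ k` further variables remove all the exceptions.
-/

open Finset MeasureTheory Filter

open Pool.Agent.Run7.h757.MW (Reg)

namespace Pool.Agent.Results.MP_efcac8_nt.MostlyGenuinePowers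

/-- `M` is a sum of `r` `k`-th powers `x_i ^ k`, `1 ≤ x_i ∈ V`, and of `s` terms `⌊lam_i n_i ^ k⌋`, `1 ≤ n_i ∈ W i`. -/
def Rep (k r s : ℕ) (V : Set ℕ) (W : Fin s → Set ℕ) (lam : Fin s → ℝ) (M : ℕ) : Prop :=
  ∃ (x : Fin r → ℕ) (n : Fin s → ℕ), (∀ i, 1 ≤ x i ∧ x i ∈ V) ∧ (∀ i, 1 ≤ n i ∧ n i ∈ W i) ∧
    ∑ i, x i ^ k + ∑ i, ⌊lam i * (n i : ℝ) ^ k⌋₊ = M

/-- **Main result.** -/
theorem result :
    -- two examples of regularly distributed sets
    Reg (1 / 2) 0 Set.univ ∧ Reg (1 / 2) 1 {p : ℕ | p.Prime} ∧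
    -- `2 k + 1` terms with primes
    (∀ k : ℕ, 512 ≤ k → ∀ᵐ lam : Fin (2 * k + 1 - 9 * k / 5) → ℝ, (∀ i, 0 < lam i) →
      ∀ᶠ M : ℕ in atTop, Rep k (9 * k / 5) (2 * k + 1 - 9 * k / 5) {p : ℕ | p.Prime}
        (fun _ => {p : ℕ | p.Prime}) lam M) ∧
    -- `⌊C k⌋` terms, `⌊ρ k⌋` of them genuine `k`-th powers
    (∀ C ρ : ℝ, 0 ≤ ρ → ρ + Real.exp (-ρ) < C → ∀ᶠ k : ℕ in atTop,
      ∀ (V : Set ℕ) (W : Fin (⌊C * k⌋₊ - ⌊ρ * k⌋₊) → Set ℕ) (c t : ℝ), 0 < c → 0 ≤ t →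
        Reg c t V → (∀ i, Reg c t (W i)) →
        ∀ᵐ lam : Fin (⌊C * k⌋₊ - ⌊ρ * k⌋₊) → ℝ, (∀ i, 0 < lam i) →
          ∀ᶠ M : ℕ in atTop, Rep k ⌊ρ * k⌋₊ (⌊C * k⌋₊ - ⌊ρ * k⌋₊) V W lam M) ∧
    -- the criterion, `r` genuine `k`-th powers and `u + J` generic terms
    (∀ (k r u J : ℕ) (V : Set ℕ) (W : Fin (u + J) → Set ℕ) (c t : ℝ), 2 ≤ k → 1 ≤ r → 4 ≤ u →
      (k : ℝ) < 2 ^ J * ((u : ℝ) - k * (1 - 1 / (k : ℝ)) ^ r) → 0 < c → 0 ≤ t →
      Reg c t V → (∀ i, Reg c t (W i)) →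
      ∀ᵐ lam : Fin (u + J) → ℝ, (∀ i, 0 < lam i) → ∀ᶠ M : ℕ in atTop, Rep k r (u + J) V W lam M) := by
  refine ⟨Pool.Agent.Run7.h757.MW.reg_univ, Pool.Agent.Run7.h416.MW.regp, ?_, ?_, ?_⟩
  · intro k hk
    exact Pool.Agent.Run7.h757.MW.rep_HL k hk _ _ (1 / 2) 1 (by norm_num) (by norm_num)
      Pool.Agent.Run7.h416.MW.regp fun _ => Pool.Agent.Run7.h416.MW.regp
  · intro C ρ hρ hC
    exact Pool.Agent.Run7.h757.MW.rep_prop C ρ hρ hC
  · intro k r u J V W c t hk _ hu hcr hc ht hV hW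
    exact Pool.Agent.Run7.h757.MW.lifted Pool.Agent.Run7.h56.MW.t_STEP k r u J hk hu V W c t hc
      ht hV hW hcr

end Pool.Agent.Results.MP_efcac8_nt.MostlyGenuinePowers
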